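import Mathlib
import Pool.Agent.W2helper84.RB.Scal
import Pool.Agent.Results.MP_a2f59b_nt.AtLeastSix

set_option autoImplicit false

/-!
# The arithmetic nature of a real number and its digits in random bases

Let `x` be a real number. We choose the base `b` at random among `H` consecutive integers and look
at the joint law of the classes modulo `q` equal parts of the digits number `2, ..., k + 1` of
`x, x ^ 2, ..., x ^ R`, for all `k ≤ (log H) ^ κ` and `q ≤ exp ((log H) ^ β)`, where `3 κ + β < 1`.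

* `x` is algebraic of degree `d` if and only if this law is nearly uniform for `R = d - 1` at all
  large scales `H` and for `R = d` at no large scale; for `d = 1` this is the case of the rational
  numbers.
* `x` is transcendental if and only if for every `R` the law is nearly uniform at arbitrarily large
  scales, and then it is nearly uniform at all scales of arbitrarily long ranges `[H₁, H₁ ^ A]`.

There is nothing in between: for every real number `x` and every `R`, the law is nearly uniform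
either at no large scale or at all scales of arbitrarily long ranges.

With the theorem on at least six of the nine numbers of the problem (starting file) this gives a
statement on the digits of the nine numbers.
-/

namespace Pool.Agent.Results.MP_a2f59b_nt.DigitTrichotomy

open Real

/-- the digit number `n ≥ 1` after the point in the base `b` expansion of `x` -/
noncomputable def digit (b : ℕ) (x : ℝ) (n : ℕ) : ℤ := ⌊x * (b : ℝ) ^ n⌋ % (b : ℤ)

/-- the class `c ∈ {0, ..., q - 1}` of this digit `d ∈ {0, ..., b - 1}`: the integral part of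
`q d / b`, so that `c b ≤ q d < (c + 1) b` -/
noncomputable def digitClass (q b : ℕ) (x : ℝ) (n : ℕ) : ℤ := ((q : ℤ) * digit b x n) / (b : ℤ)

/-- The powers `x, x ^ 2, ..., x ^ R` have random digits at the scale `H`: for every interval
`(a, a + H]` of bases, every `k ≤ (log H) ^ κ`, every `q ≤ exp ((log H) ^ β)` and every set `E` of
`R × k` matrices with entries in `{0, ..., q - 1}`, the number of the bases `b` for which the matrix
of the classes of the digits number `2, ..., k + 1` of the powers is in `E` differs from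
`H |E| / q ^ (R k)` by at most `H exp (-(log H) ^ β)`. -/
def RandomAt (κ β : ℝ) (R : ℕ) (x : ℝ) (H : ℕ) : Prop :=
  ∀ a k q : ℕ, 1 ≤ q → (k : ℝ) ≤ (Real.log H) ^ κ → (q : ℝ) ≤ Real.exp ((Real.log H) ^ β) →
    ∀ E : Set (Fin R → Fin k → ℤ), (∀ w ∈ E, ∀ i j, 0 ≤ w i j ∧ w i j < q) →
      |(({b : ℕ | a < b ∧ b ≤ a + H ∧
          (fun (i : Fin R) (j : Fin k) => digitClass q b (x ^ ((i : ℕ) + 1)) ((j : ℕ) + 2)) ∈
            E}.ncard : ℕ) : ℝ) -
        H * ((E.ncard : ℝ) / (q : ℝ) ^ (R * k))| ≤ H * Real.exp (-(Real.log H) ^ β)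

/-- random digits at no large scale -/
def Never (κ β : ℝ) (R : ℕ) (x : ℝ) : Prop := ∃ H₀ : ℕ, ∀ H : ℕ, H₀ ≤ H → ¬ RandomAt κ β R x H

/-- random digits at all large scales -/
def Always (κ β : ℝ) (R : ℕ) (x : ℝ) : Prop := ∃ H₀ : ℕ, ∀ H : ℕ, H₀ ≤ H → RandomAt κ β R x H

/-- random digits at all scales of arbitrarily long ranges `[H₁, H₁ ^ A]` with `H₁` arbitrarily
large -/
def LongRanges (κ β : ℝ) (R : ℕ) (x : ℝ) : Prop :=
  ∀ A N : ℕ, ∃ H₁ : ℕ, N ≤ H₁ ∧ ∀ H : ℕ, H₁ ≤ H → H ≤ H₁ ^ A → RandomAt κ β R x H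

/-- the nine numbers, in the order of the problem -/
noncomputable def nine : Fin 9 → ℝ :=
  ![π + exp 1, π - exp 1, π * exp 1, π / exp 1, π ^ π, exp 1 ^ exp 1, π ^ exp 1, π ^ √2,
    exp 1 ^ (π ^ 2)]

open Pool.Agent.W2helper84.RB (RandAt)
open Polynomial

theorem randomAt_iff (κ β : ℝ) (R : ℕ) (x : ℝ) (H : ℕ) :
    RandomAt κ β R x H ↔ RandAt κ β H (fun i : Fin R => x ^ ((i : ℕ) + 1)) := Iff.rfl

/-- the relation of degree at most `R` -/
theorem rel_iff (x : ℝ) (R : ℕ) : (∃ P : ℤ[X], P ≠ 0 ∧ P.natDegree ≤ R ∧ aeval x P = 0) ↔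
    IsAlgebraic ℚ x ∧ (minpoly ℚ x).natDegree ≤ R := by
  constructor
  · rintro ⟨P, hP, hPR, hPx⟩
    have h1 : P.map (Int.castRingHom ℚ) ≠ 0 :=
      (Polynomial.map_ne_zero_iff (RingHom.injective_int _)).2 hP
    have h2 : aeval x (P.map (Int.castRingHom ℚ)) = 0 := by
      rw [aeval_def, eval₂_map]
      rw [aeval_def] at hPx
      rw [← hPx]
      congr 1
    exact ⟨⟨_, h1, h2⟩, (natDegree_le_natDegree (minpoly.degree_le_of_ne_zero ℚ x h1 h2)).trans
      (natDegree_map_le.trans hPR)⟩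
  · rintro ⟨hx, hxR⟩
    have hi : IsIntegral ℚ x := hx.isIntegral
    obtain ⟨b, hb, hbP'⟩ := IsLocalization.integerNormalization_spec (nonZeroDivisors ℤ) (minpoly ℚ x)
    have hb0 : b ≠ 0 := nonZeroDivisors.ne_zero hb
    have hbP : ∀ n, algebraMap ℤ ℚ ((IsLocalization.integerNormalization (nonZeroDivisors ℤ)
        (minpoly ℚ x)).coeff n) = b • (minpoly ℚ x).coeff n := by
      intro n
      rw [← coeff_map, hbP', coeff_smul]
    refine ⟨IsLocalization.integerNormalization (nonZeroDivisors ℤ) (minpoly ℚ x), ?_, ?_, ?_⟩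
    · intro h0
      have h1 := hbP (minpoly ℚ x).natDegree
      rw [h0, coeff_zero, map_zero] at h1
      have h2 : (minpoly ℚ x).coeff (minpoly ℚ x).natDegree = 1 := (minpoly.monic hi).coeff_natDegree
      rw [h2] at h1
      simp at h1
      exact hb0 (by exact_mod_cast h1.symm)
    · rw [natDegree_le_iff_coeff_eq_zero]
      intro n hn
      have h1 := hbP n
      rw [coeff_eq_zero_of_natDegree_lt (lt_of_le_of_lt hxR hn), smul_zero] at h1
      exact (IsFractionRing.injective ℤ ℚ) (by rw [h1, map_zero])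
    · exact IsLocalization.integerNormalization_aeval_eq_zero (nonZeroDivisors ℤ) _ (minpoly.aeval ℚ x)

theorem never_of {κ β : ℝ} (hκ : 0 < κ) (hβ : 0 < β) {R : ℕ} {x : ℝ}
    (h : IsAlgebraic ℚ x ∧ (minpoly ℚ x).natDegree ≤ R) : Never κ β R x := by
  obtain ⟨P, hP, hPR, hPx⟩ := (rel_iff x R).2 h
  exact Pool.Agent.W2helper84.RB.not_randAt_alg x P hP hPR hPx κ β hκ hβ

theorem no_rel {R : ℕ} {x : ℝ} (h : ¬ (IsAlgebraic ℚ x ∧ (minpoly ℚ x).natDegree ≤ R)) :
    ∀ P : ℤ[X], P ≠ 0 → P.natDegree ≤ R → aeval x P ≠ 0 := fun P hP hPR hPx =>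
  h ((rel_iff x R).1 ⟨P, hP, hPR, hPx⟩)

theorem longRanges_of {κ β : ℝ} (hκ : 0 < κ) (hβ : 0 < β) (hκβ : 3 * κ + β < 1) {R : ℕ} {x : ℝ}
    (h : ¬ (IsAlgebraic ℚ x ∧ (minpoly ℚ x).natDegree ≤ R)) : LongRanges κ β R x := fun A N =>
  Pool.Agent.W2helper84.RB.randAt_ranges R x (no_rel h) κ β hκ hβ (by linarith) A N

theorem not_both {κ β : ℝ} {R : ℕ} {x : ℝ} (h1 : Never κ β R x) (h2 : LongRanges κ β R x) :
    False := by
  obtain ⟨H₀, h1⟩ := h1
  obtain ⟨H₁, h3, h4⟩ := h2 1 H₀
  exact h1 H₁ h3 (h4 H₁ le_rfl (by rw [pow_one]))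

theorem never_iff {κ β : ℝ} (hκ : 0 < κ) (hβ : 0 < β) (hκβ : 3 * κ + β < 1) (R : ℕ) (x : ℝ) :
    Never κ β R x ↔ IsAlgebraic ℚ x ∧ (minpoly ℚ x).natDegree ≤ R :=
  ⟨fun h => by
    by_contra hcon
    exact not_both h (longRanges_of hκ hβ hκβ hcon), never_of hκ hβ⟩

theorem longRanges_iff {κ β : ℝ} (hκ : 0 < κ) (hβ : 0 < β) (hκβ : 3 * κ + β < 1) (R : ℕ) (x : ℝ) :
    LongRanges κ β R x ↔ ¬ (IsAlgebraic ℚ x ∧ (minpoly ℚ x).natDegree ≤ R) :=
  ⟨fun h h2 => not_both (never_of hκ hβ h2) h, longRanges_of hκ hβ hκβ⟩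

theorem always_of {κ β : ℝ} (hκ : 0 < κ) (hβ : 0 < β) (hκβ : 3 * κ + β < 1) {R : ℕ} {x : ℝ}
    (hx : IsAlgebraic ℚ x) (h : R < (minpoly ℚ x).natDegree) : Always κ β R x :=
  Pool.Agent.W2helper84.RB.randAt_alg R x hx (no_rel fun h2 => absurd h2.2 (not_le.2 h)) κ β hκ hβ
    (by linarith)

theorem transcendental_iff {κ β : ℝ} (hκ : 0 < κ) (hβ : 0 < β) (hκβ : 3 * κ + β < 1) (x : ℝ) :
    Transcendental ℚ x ↔ ∀ R, LongRanges κ β R x := by
  constructor
  · intro hx R
    exact longRanges_of hκ hβ hκβ fun h => hx h.1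
  · intro h hx
    exact ((longRanges_iff hκ hβ hκβ _ x).1 (h (minpoly ℚ x).natDegree)) ⟨hx, le_rfl⟩

theorem algebraic_iff {κ β : ℝ} (hκ : 0 < κ) (hβ : 0 < β) (hκβ : 3 * κ + β < 1) (x : ℝ) :
    IsAlgebraic ℚ x ↔ ∃ R, Never κ β R x := by
  constructor
  · intro hx
    exact ⟨(minpoly ℚ x).natDegree, never_of hκ hβ ⟨hx, le_rfl⟩⟩
  · rintro ⟨R, h⟩
    exact ((never_iff hκ hβ hκβ R x).1 h).1

theorem rational_iff (x : ℝ) : (∃ r : ℚ, x = r) ↔ IsAlgebraic ℚ x ∧ (minpoly ℚ x).natDegree ≤ 1 := by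
  constructor
  · rintro ⟨r, rfl⟩
    refine (rel_iff _ 1).1 ⟨C (r.den : ℤ) * X - C r.num, ?_, ?_, ?_⟩
    · intro h0
      have h1 : (C (r.den : ℤ) * X - C r.num : ℤ[X]).coeff 1 = r.den := by
        rw [coeff_sub, coeff_C_mul, coeff_X_one, coeff_C, if_neg one_ne_zero, mul_one, sub_zero]
      rw [h0, coeff_zero] at h1
      exact r.den_ne_zero (by exact_mod_cast h1.symm)
    · compute_degree
    · rw [map_sub, map_mul, aeval_C, aeval_C, aeval_X]
      simp only [algebraMap_int_eq, eq_intCast, Int.cast_natCast]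
      have h1 : (r.den : ℝ) * r = r.num := by
        have := Rat.mul_den_eq_num r
        rw [mul_comm]
        exact_mod_cast this
      linarith
  · intro h
    obtain ⟨P, hP, hPR, hPx⟩ := (rel_iff x 1).2 h
    rw [aeval_eq_sum_range' (show P.natDegree < 2 by omega), Finset.sum_range_succ,
      Finset.sum_range_one] at hPx
    simp only [pow_zero, pow_one, zsmul_eq_mul, mul_one] at hPx
    have h1 : P.coeff 1 ≠ 0 := by
      intro h1
      rw [h1] at hPx
      simp at hPx
      apply hP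
      ext n
      rw [coeff_zero]
      rcases n with _ | _ | n
      · exact hPx
      · exact h1
      · exact coeff_eq_zero_of_natDegree_lt (by omega)
    refine ⟨-(P.coeff 0 : ℚ) / P.coeff 1, ?_⟩
    have h2 : (P.coeff 1 : ℝ) ≠ 0 := by exact_mod_cast h1
    push_cast
    field_simp
    linarith

/-- **The digits in random bases decide on the arithmetic nature.** Let `κ, β > 0` with
`3 κ + β < 1`, and let `x` be a real number.

(1) For every `R`, either `x` is a root of a nonzero integer polynomial of degree at most `R`, and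
the powers up to `x ^ R` have random digits at no large scale; or it is not, and they have random
digits at all scales of arbitrarily long ranges.

(2) `x` is algebraic of degree `d ≥ 1` if and only if the powers up to `x ^ (d - 1)` have random
digits at all large scales and the powers up to `x ^ d` at no large scale.

(3) `x` is rational if and only if `x` has random digits at no large scale; `x` is algebraic
irrational if and only if `x` has random digits at all large scales and, for some `R`, the powers up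
to `x ^ R` have random digits at no large scale; `x` is transcendental if and only if for every `R`
the powers up to `x ^ R` have random digits at all scales of arbitrarily long ranges.

(4) At least six of the nine numbers of the problem have, for every `R`, with their powers up to
the `R`-th, random digits at all scales of arbitrarily long ranges, unless the set of the other
ones is exactly one of four given sets. -/
theorem result (κ β : ℝ) (hκ : 0 < κ) (hβ : 0 < β) (hκβ : 3 * κ + β < 1) :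
    (∀ (x : ℝ) (R : ℕ),
      ((∃ P : ℤ[X], P ≠ 0 ∧ P.natDegree ≤ R ∧ aeval x P = 0) ∧ Never κ β R x) ∨
      ((¬ ∃ P : ℤ[X], P ≠ 0 ∧ P.natDegree ≤ R ∧ aeval x P = 0) ∧ LongRanges κ β R x)) ∧
    (∀ (x : ℝ) (d : ℕ), 1 ≤ d →
      ((IsAlgebraic ℚ x ∧ (minpoly ℚ x).natDegree = d) ↔
        Always κ β (d - 1) x ∧ Never κ β d x)) ∧
    (∀ x : ℝ, ((∃ r : ℚ, x = r) ↔ Never κ β 1 x) ∧
      ((IsAlgebraic ℚ x ∧ Irrational x) ↔ Always κ β 1 x ∧ ∃ R, Never κ β R x) ∧
      (Transcendental ℚ x ↔ ∀ R, LongRanges κ β R x)) ∧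
    (6 ≤ {i : Fin 9 | ∀ R, LongRanges κ β R (nine i)}.ncard ∨
      {i : Fin 9 | ∃ R, Never κ β R (nine i)} ∈
        ({{0, 4, 6, 7}, {1, 4, 6, 7}, {4, 5, 6, 8}, {5, 6, 7, 8}} : Set (Set (Fin 9)))) := by
  refine ⟨fun x R => ?_, fun x d hd => ?_, fun x => ⟨?_, ?_, transcendental_iff hκ hβ hκβ x⟩, ?_⟩
  · by_cases h : IsAlgebraic ℚ x ∧ (minpoly ℚ x).natDegree ≤ R
    · exact Or.inl ⟨(rel_iff x R).2 h, never_of hκ hβ h⟩
    · exact Or.inr ⟨fun h2 => h ((rel_iff x R).1 h2), longRanges_of hκ hβ hκβ h⟩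
  · constructor
    · rintro ⟨hx, hxd⟩
      exact ⟨always_of hκ hβ hκβ hx (by omega), never_of hκ hβ ⟨hx, hxd.le⟩⟩
    · rintro ⟨⟨H₀, h1⟩, h2⟩
      obtain ⟨hx, hxd⟩ := (never_iff hκ hβ hκβ d x).1 h2
      refine ⟨hx, ?_⟩
      by_contra hne
      obtain ⟨H₁, h3⟩ := never_of hκ hβ (R := d - 1) (x := x) ⟨hx, by omega⟩
      exact h3 (max H₀ H₁) (le_max_right _ _) (h1 _ (le_max_left _ _))
  · rw [rational_iff, never_iff hκ hβ hκβ]
  · have h1 : Irrational x ↔ ¬ (IsAlgebraic ℚ x ∧ (minpoly ℚ x).natDegree ≤ 1) := by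
      rw [← rational_iff]
      unfold Irrational
      rw [not_iff_not]
      constructor
      · rintro ⟨r, hr⟩
        exact ⟨r, hr.symm⟩
      · rintro ⟨r, hr⟩
        exact ⟨r, hr.symm⟩
    rw [h1, ← algebraic_iff hκ hβ hκβ]
    constructor
    · rintro ⟨hx, h2⟩
      exact ⟨always_of hκ hβ hκβ hx (by
        by_contra h3
        exact h2 ⟨hx, by omega⟩), hx⟩
    · rintro ⟨⟨H₀, h2⟩, hx⟩
      refine ⟨hx, fun h3 => ?_⟩
      obtain ⟨H₁, h4⟩ := never_of hκ hβ h3
      exact h4 (max H₀ H₁) (le_max_right _ _) (h2 _ (le_max_left _ _))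
  · have h1 : {i : Fin 9 | ∀ R, LongRanges κ β R (nine i)} =
        {i : Fin 9 | Transcendental ℚ (AtLeastSix.nine i)} := by
      ext i
      exact (transcendental_iff hκ hβ hκβ (nine i)).symm
    have h2 : {i : Fin 9 | ∃ R, Never κ β R (nine i)} = AtLeastSix.alg := by
      ext i
      exact (algebraic_iff hκ hβ hκβ (nine i)).symm
    rw [h1, h2]
    rcases AtLeastSix.result.1 with h | h | h | h
    · exact Or.inl h
    · exact Or.inr (by rw [h.1]; simp)
    · exact Or.inr (by rw [h.1]; simp)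
    · rcases h.1 with h | h
      · exact Or.inr (by rw [h]; simp)
      · exact Or.inr (by rw [h]; simp)

end Pool.Agent.Results.MP_a2f59b_nt.DigitTrichotomy
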