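import Mathlib
import Pool.Agent.W2helper76.FR.Fin
import Pool.Agent.W2helper5.FR.Log
import Pool.Agent.W2helper53.FR.Ax
import Pool.Agent.W2helper55.FR.Max
import Pool.Agent.W2helper3.FR.Ult

/-!
# Few relations with few terms between products of powers of `π`, `π ^ π`, `e ^ e`, …

Let `z_1, …, z_n` be arbitrary complex numbers and `M(r, β) = exp (r_1 z_1 + ⋯ + r_n z_n + β)` for rational
`r_j` and algebraic `β`. For the numbers `log π, π log π, e, e log π, √2 log π, π ^ 2` these are the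
products of a power `e ^ β` and of rational powers of `π`, `π ^ π`, `e ^ e`, `π ^ e`, `π ^ √2` and
`e ^ (π ^ 2)`. Each of the nine numbers `π + e`, `π - e`, `π e`, `π / e`, `π ^ π`, `e ^ e`, `π ^ e`, `π ^ √2`,
`e ^ (π ^ 2)` is such a product or the sum of two of them; the algebraicity of a sum of `m` such products
is a linear relation with algebraic coefficients with `m + 1` terms.

A relation `c_1 M(v_1) + ⋯ + c_m M(v_m) = 0` with algebraic coefficients is minimal if the numbers `M(v_i)`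
satisfy no shorter one. From every relation one gets others: one may multiply it by a common factor `M(g)`,
and one may replace `v_i` by `v_i + h_i` if `M(h_i)` is algebraic. We do not distinguish such relations.

1. For every `z` there is a finite dimensional rational vector space of exponents which contains the
   exponents of all minimal relations, of any length.
2. For all `n` and `m` there is a number `B` such that for ALL `z_1, …, z_n` there are at most `B` minimal
   relations with `m` terms. So `B` does not depend on the numbers; and for all `z` and `m` there are at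
   most `B` sets of `m` numbers `M(v_1), …, M(v_m)` such that some linear combination of them, but of no
   proper subset, with algebraic coefficients is a nonzero algebraic number.
3. In particular, this holds for the products of powers of `π`, `π ^ π`, `e ^ e`, `π ^ e`, `π ^ √2`,
   `e ^ (π ^ 2)` and `e ^ β`.

For `n = 1` and `m = 3` there is at most one relation (`OneThreeTermRelation`).

The proof. Otherwise, there is, in an ultraproduct, an infinite (internal) set of minimal relations with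
`m` terms. There `M` is defined on the infinite dimensional rational vector space `ℚ* ^ n ⊕ ℚ̄*`. The
derivations `D` of the ultrapower of `ℂ` which are ultraproducts of derivations of `ℂ` satisfy
`D M(r, β) / M(r, β) = ∑ r_j D(e ^ z_j) / e ^ z_j + D(e ^ β) / e ^ β` also for nonstandard rational `r_j`. As in
the theorem of Ax, and with the theorem of Lindemann and Weierstrass, this implies that `t` multiplicatively
independent (modulo constants) numbers `M(v_i)` always generate a field of transcendence degree at least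
`t - n` over the constants. A finite dimensional space of exponents for which the difference of the
dimension and of the transcendence degree is maximal contains the exponents of all minimal
relations, up to common factors; so there are only countably many of them, and an internal set which
is countable is finite.
-/

set_option autoImplicit false

namespace Pool.Agent.Results.MP_a2f59b_nt.FewSparseRelations

/-- `M z (r, β) = exp (r_1 z_1 + ⋯ + r_n z_n + β)` for rational `r_j` and algebraic `β`. -/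
noncomputable def M {n : ℕ} (z : Fin n → ℂ) (g : (Fin n → ℚ) × algebraicClosure ℚ ℂ) : ℂ :=
  Complex.exp (∑ j, (g.1 j : ℂ) * z j + (g.2 : ℂ))

/-- The numbers `u_i` satisfy a linear relation with algebraic coefficients, and no proper subset of
them does. -/
def Minimal {m : ℕ} (u : Fin m → ℂ) : Prop :=
  ¬ LinearIndependent (algebraicClosure ℚ ℂ) u ∧
    ∀ j, LinearIndependent (algebraicClosure ℚ ℂ) (fun i : {i : Fin m // i ≠ j} => u i)

/-- `π ^ (r 0) (π ^ π) ^ (r 1) (e ^ e) ^ (r 2) (π ^ e) ^ (r 3) (π ^ √2) ^ (r 4) (e ^ (π ^ 2)) ^ (r 5) e ^ β`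
for rational `r i` and algebraic `β`. -/
noncomputable def P (g : (Fin 6 → ℚ) × algebraicClosure ℚ ℂ) : ℂ :=
  ((Real.pi ^ (g.1 0 : ℝ) * (Real.pi ^ Real.pi) ^ (g.1 1 : ℝ) *
    (Real.exp 1 ^ Real.exp 1) ^ (g.1 2 : ℝ) * (Real.pi ^ Real.exp 1) ^ (g.1 3 : ℝ) *
    (Real.pi ^ √2) ^ (g.1 4 : ℝ) * (Real.exp 1 ^ (Real.pi ^ 2)) ^ (g.1 5 : ℝ) : ℝ) : ℂ) *
    Complex.exp (g.2 : ℂ)

/-- the logarithms -/
noncomputable def z₀ : Fin 6 → ℂ :=
  ![((Real.log Real.pi : ℝ) : ℂ), ((Real.pi * Real.log Real.pi : ℝ) : ℂ), ((Real.exp 1 : ℝ) : ℂ),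
    ((Real.exp 1 * Real.log Real.pi : ℝ) : ℂ), ((√2 * Real.log Real.pi : ℝ) : ℂ),
    ((Real.pi ^ 2 : ℝ) : ℂ)]

theorem P_eq (g : (Fin 6 → ℚ) × algebraicClosure ℚ ℂ) : P g = M z₀ g := by
  have hπ := Real.pi_pos
  have he := Real.exp_pos 1
  unfold P M
  rw [Complex.exp_add]
  congr 1
  have h1 : (∑ j, (g.1 j : ℂ) * z₀ j) = ((Real.log Real.pi * g.1 0 +
      Real.pi * Real.log Real.pi * g.1 1 + Real.exp 1 * g.1 2 +
      Real.exp 1 * Real.log Real.pi * g.1 3 + √2 * Real.log Real.pi * g.1 4 +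
      Real.pi ^ 2 * g.1 5 : ℝ) : ℂ) := by
    rw [Fin.sum_univ_six]
    simp only [z₀, Matrix.cons_val]
    push_cast
    ring
  rw [h1, ← Complex.ofReal_exp]
  congr 1
  rw [Real.exp_add, Real.exp_add, Real.exp_add, Real.exp_add, Real.exp_add]
  have h2 : ∀ (a b c : ℝ), 0 < a → (a ^ b) ^ c = Real.exp (b * Real.log a * c) := by
    intro a b c ha
    rw [Real.rpow_def_of_pos (Real.rpow_pos_of_pos ha b), Real.log_rpow ha]
  rw [h2 _ _ _ hπ, h2 _ _ _ he, h2 _ _ _ hπ, h2 _ _ _ hπ, h2 _ _ _ he,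
    Real.rpow_def_of_pos hπ, Real.log_exp]
  simp only [mul_one]

open Pool.Agent.W2helper76.FR in
theorem circuit_iff {n m : ℕ} {z : Fin n → ℂ} (v : Fin m → (Fin n → ℚ) × algebraicClosure ℚ ℂ) :
    Circuit QB (Mz z) v ↔ Minimal (fun i => M z (v i)) := Iff.rfl

open Pool.Agent.W2helper76.FR in
theorem circuit_cons {n m : ℕ} {z : Fin n → ℂ} (v : Fin m → (Fin n → ℚ) × algebraicClosure ℚ ℂ) :
    Circuit QB (Mz z) (Fin.cons 0 v : Fin (m + 1) → (Fin n → ℚ) × QB) ↔
      Minimal (Fin.cons 1 (fun i => M z (v i)) : Fin (m + 1) → ℂ) := by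
  have h : (fun i => Mz z (Multiplicative.ofAdd
      ((Fin.cons 0 v : Fin (m + 1) → (Fin n → ℚ) × QB) i))) =
      (Fin.cons 1 (fun i => M z (v i)) : Fin (m + 1) → ℂ) := by
    funext i
    refine Fin.cases ?_ (fun i => ?_) i
    · rw [Fin.cons_zero, Fin.cons_zero, ofAdd_zero, map_one]
    · rw [Fin.cons_succ, Fin.cons_succ]
      rfl
  unfold Circuit Minimal
  rw [← h]

/-- **Main result.** -/
theorem result :
    (∀ (n : ℕ) (z : Fin n → ℂ), ∃ W : Submodule ℚ ((Fin n → ℚ) × algebraicClosure ℚ ℂ),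
      FiniteDimensional ℚ W ∧
      ∀ (m : ℕ) (v : Fin m → (Fin n → ℚ) × algebraicClosure ℚ ℂ), Minimal (fun i => M z (v i)) →
        ∀ i j, ∃ w ∈ W, IsAlgebraic ℚ (M z (v i - v j - w))) ∧
    (∀ n m : ℕ, ∃ B : ℕ, ∀ z : Fin n → ℂ,
      (∃ T : Finset (Fin m → (Fin n → ℚ) × algebraicClosure ℚ ℂ), T.card ≤ B ∧
        (∀ w ∈ T, Minimal (fun i => M z (w i))) ∧
        ∀ v : Fin m → (Fin n → ℚ) × algebraicClosure ℚ ℂ, Minimal (fun i => M z (v i)) →
          ∃ w ∈ T, ∃ g, ∀ i, IsAlgebraic ℚ (M z (v i - w i - g))) ∧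
      ∃ T : Finset (Fin m → (Fin n → ℚ) × algebraicClosure ℚ ℂ), T.card ≤ B ∧
        (∀ w ∈ T, Minimal (Fin.cons 1 (fun i => M z (w i)) : Fin (m + 1) → ℂ)) ∧
        ∀ v : Fin m → (Fin n → ℚ) × algebraicClosure ℚ ℂ,
          Minimal (Fin.cons 1 (fun i => M z (v i)) : Fin (m + 1) → ℂ) →
          ∃ w ∈ T, ∀ i, IsAlgebraic ℚ (M z (v i - w i))) ∧
    ∀ m : ℕ, ∃ T : Finset (Fin m → (Fin 6 → ℚ) × algebraicClosure ℚ ℂ),
      ∀ v : Fin m → (Fin 6 → ℚ) × algebraicClosure ℚ ℂ,
        Minimal (Fin.cons 1 (fun i => P (v i)) : Fin (m + 1) → ℂ) →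
        ∃ w ∈ T, ∀ i, IsAlgebraic ℚ (P (v i - w i)) := by
  have hX := Pool.Agent.W2helper53.FR.ax Pool.Agent.W2helper5.FR.logStm
  have hM := Pool.Agent.W2helper55.FR.maxStm
  have hU := Pool.Agent.W2helper3.FR.ult
  have h1 := Pool.Agent.W2helper76.FR.dimt hX hM hU
  have h2 := Pool.Agent.W2helper76.FR.rels (Pool.Agent.W2helper76.FR.bound hX hM hU)
  have h3 := Pool.Agent.W2helper76.FR.sums h2
  have h4 : ∀ n m : ℕ, ∃ B : ℕ, ∀ z : Fin n → ℂ,
      (∃ T : Finset (Fin m → (Fin n → ℚ) × algebraicClosure ℚ ℂ), T.card ≤ B ∧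
        (∀ w ∈ T, Minimal (fun i => M z (w i))) ∧
        ∀ v : Fin m → (Fin n → ℚ) × algebraicClosure ℚ ℂ, Minimal (fun i => M z (v i)) →
          ∃ w ∈ T, ∃ g, ∀ i, IsAlgebraic ℚ (M z (v i - w i - g))) ∧
      ∃ T : Finset (Fin m → (Fin n → ℚ) × algebraicClosure ℚ ℂ), T.card ≤ B ∧
        (∀ w ∈ T, Minimal (Fin.cons 1 (fun i => M z (w i)) : Fin (m + 1) → ℂ)) ∧
        ∀ v : Fin m → (Fin n → ℚ) × algebraicClosure ℚ ℂ,
          Minimal (Fin.cons 1 (fun i => M z (v i)) : Fin (m + 1) → ℂ) →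
          ∃ w ∈ T, ∀ i, IsAlgebraic ℚ (M z (v i - w i)) := by
    intro n m
    obtain ⟨B₁, hB₁⟩ := h2 n m
    obtain ⟨B₂, hB₂⟩ := h3 n m
    refine ⟨B₁ + B₂, fun z => ⟨?_, ?_⟩⟩
    · obtain ⟨T, hT1, hT2, hT3⟩ := hB₁ z
      exact ⟨T, by omega, hT2, hT3⟩
    · obtain ⟨T, hT1, hT2, hT3⟩ := hB₂ z
      exact ⟨T, by omega, fun w hw => (circuit_cons w).1 (hT2 w hw),
        fun v hv => hT3 v ((circuit_cons v).2 hv)⟩
  refine ⟨h1, h4, fun m => ?_⟩
  obtain ⟨B, hB⟩ := h4 6 m
  obtain ⟨-, T, -, -, hT⟩ := hB z₀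
  refine ⟨T, fun v hv => ?_⟩
  simp only [P_eq] at hv ⊢
  exact hT v hv

end Pool.Agent.Results.MP_a2f59b_nt.FewSparseRelations
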