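import Mathlib
import Pool.Agent.W2helper84.RB.Alg

set_option autoImplicit false

/-!
# The digits of `π + e`, `π - e`, `π e`, `π / e` in a random base

At every large scale `H` at least three of the four numbers `x = π + e, π - e, π e, π / e` have the
following property: if the base `b` is chosen at random among `H` consecutive integers, the classes
modulo `q` equal parts of the digits number `2, ..., k + 1` of `x, x ^ 2, ..., x ^ R` are, in total
variation, `exp (-(log H) ^ β)`-close to independent uniformly distributed variables, for all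
`k ≤ (log H) ^ κ` and `q ≤ exp ((log H) ^ β)`, where `3 κ + β < 1`. An algebraic number of degree at
most `R` has this property at no large scale.
-/

namespace Pool.Agent.Results.MP_a2f59b_nt.RandomBasesEveryScale

/-- the digit number `n ≥ 1` after the point in the base `b` expansion of `x` -/
noncomputable def digit (b : ℕ) (x : ℝ) (n : ℕ) : ℤ := ⌊x * (b : ℝ) ^ n⌋ % (b : ℤ)

/-- the class `c ∈ {0, ..., q - 1}` of this digit `d ∈ {0, ..., b - 1}`: the integral part of
`q d / b`, so that `c b ≤ q d < (c + 1) b` -/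
noncomputable def digitClass (q b : ℕ) (x : ℝ) (n : ℕ) : ℤ := ((q : ℤ) * digit b x n) / (b : ℤ)

/-- The numbers `x 0, ..., x (R - 1)` have random digits at the scale `H`: for every interval
`(a, a + H]` of bases, every `k ≤ (log H) ^ κ`, every `q ≤ exp ((log H) ^ β)` and every set `E` of
`R × k` matrices with entries in `{0, ..., q - 1}`, the number of the bases `b` for which the matrix
of the classes of the digits number `2, ..., k + 1` of the `x i` is in `E` differs from
`H |E| / q ^ (R k)` by at most `H exp (-(log H) ^ β)`. -/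
def RandomAt (κ β : ℝ) (H : ℕ) {R : ℕ} (x : Fin R → ℝ) : Prop :=
  ∀ a k q : ℕ, 1 ≤ q → (k : ℝ) ≤ (Real.log H) ^ κ → (q : ℝ) ≤ Real.exp ((Real.log H) ^ β) →
    ∀ E : Set (Fin R → Fin k → ℤ), (∀ w ∈ E, ∀ i j, 0 ≤ w i j ∧ w i j < q) →
      |(({b : ℕ | a < b ∧ b ≤ a + H ∧
          (fun (i : Fin R) (j : Fin k) => digitClass q b (x i) ((j : ℕ) + 2)) ∈ E}.ncard : ℕ) : ℝ) -
        H * ((E.ncard : ℝ) / (q : ℝ) ^ (R * k))| ≤ H * Real.exp (-(Real.log H) ^ β)

/-- the powers `x, x ^ 2, ..., x ^ R` -/
noncomputable def powers (R : ℕ) (x : ℝ) : Fin R → ℝ := fun i => x ^ ((i : ℕ) + 1)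

/-- the height of an integer polynomial: the largest absolute value of a coefficient -/
def height (P : Polynomial ℤ) : ℕ := P.support.sup fun i => (P.coeff i).natAbs

/-- Mahler's U-numbers: for some degree `d` and every exponent `w` there are infinitely many
`P ∈ ℤ[X]` of degree at most `d` with `0 < |P(x)| ≤ (height P) ^ (-w)` -/
def UNumber (x : ℝ) : Prop :=
  ∃ d : ℕ, ∀ w : ℕ, {P : Polynomial ℤ | P.natDegree ≤ d ∧ 0 < |Polynomial.aeval x P| ∧
    |Polynomial.aeval x P| * (height P : ℝ) ^ w ≤ 1}.Infinite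

/-- `e`, `π`, the logarithm of a positive rational number `≠ 1`, or any transcendental number which
is not a U-number -/
def Special (z : ℝ) : Prop :=
  z = Real.exp 1 ∨ z = Real.pi ∨ (∃ q : ℚ, 0 < q ∧ q ≠ 1 ∧ z = Real.log q) ∨
    (Transcendental ℚ z ∧ ¬ UNumber z)

/-- at every large scale all numbers `u i`, with at most one exception (which may depend on the
scale), have, together with their powers up to the `R`-th, random digits -/
def AtMostOneException (κ β : ℝ) (R : ℕ) {m : ℕ} (u : Fin m → ℝ) : Prop :=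
  ∃ H₀ : ℕ, ∀ H : ℕ, H₀ ≤ H → {i : Fin m | ¬ RandomAt κ β H (powers R (u i))}.Subsingleton

/-- **At every scale at most one exception.** Let `κ, β > 0` with `3 κ + β < 1` and `R` be given.

(1) Let `z` be `e`, `π`, the logarithm of a positive rational number `≠ 1` or a transcendental number
which is not a U-number. Let the real numbers `u i` be such that `z` is algebraic over the ring
`ℤ[u i, u j]` for all `i ≠ j`. Then at every large scale at most one of the `u i` is exceptional.

(2) This holds for the four numbers `t + e`, `t - e`, `t e`, `t / e` for every real number `t`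
different from `0`, `e`, `-e`.

(3) In particular it holds for `π + e`, `π - e`, `π e`, `π / e`.

(4) On the other hand a number which is algebraic of degree at most `R` is exceptional at every large
scale. -/
theorem result (κ β : ℝ) (hκ : 0 < κ) (hβ : 0 < β) (hκβ : 3 * κ + β < 1) (R : ℕ) :
    (∀ z : ℝ, Special z → ∀ (m : ℕ) (u : Fin m → ℝ),
      (∀ i j, i ≠ j → IsAlgebraic (Algebra.adjoin ℤ ({u i, u j} : Set ℝ)) z) →
      AtMostOneException κ β R u) ∧
    (∀ t : ℝ, t ≠ 0 → t ≠ Real.exp 1 → t ≠ - Real.exp 1 →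
      AtMostOneException κ β R
        ![t + Real.exp 1, t - Real.exp 1, t * Real.exp 1, t / Real.exp 1]) ∧
    AtMostOneException κ β R
      ![Real.pi + Real.exp 1, Real.pi - Real.exp 1, Real.pi * Real.exp 1, Real.pi / Real.exp 1] ∧
    (∀ (x : ℝ) (P : Polynomial ℤ), P ≠ 0 → P.natDegree ≤ R → Polynomial.aeval x P = 0 →
      ∃ H₀ : ℕ, ∀ H : ℕ, H₀ ≤ H → ¬ RandomAt κ β H (powers R x)) := by
  have hβ' : β < 1 - 3 * κ := by linarith
  have h2 : ∀ t : ℝ, t ≠ 0 → t ≠ Real.exp 1 → t ≠ - Real.exp 1 → AtMostOneException κ β R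
      ![t + Real.exp 1, t - Real.exp 1, t * Real.exp 1, t / Real.exp 1] := by
    intro t h0 h1 h2
    obtain ⟨H₀, h⟩ := Pool.Agent.W2helper84.RB.randAt_family _
      (fun i j hij => Pool.Agent.R473.JC.four_t t h0 h1 h2 i j hij) R κ β hκ hβ hβ'
    exact ⟨H₀, fun H hH i hi j hj => h H hH i j hi hj⟩
  refine ⟨fun z hz m u hu => ?_, h2, h2 Real.pi Real.pi_ne_zero ?_ ?_, fun x P hP hPR hPx =>
    Pool.Agent.W2helper84.RB.not_randAt_alg x P hP hPR hPx κ β hκ hβ⟩
  · obtain ⟨H₀, h⟩ := Pool.Agent.W2helper84.RB.randAt_family u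
      (fun i j hij => Pool.Agent.W2helper84.RB.jointR_special hz (hu i j hij)) R κ β hκ hβ hβ'
    exact ⟨H₀, fun H hH i hi j hj => h H hH i j hi hj⟩
  · have h3 := Real.exp_one_lt_d9
    have h4 := Real.pi_gt_three
    linarith
  · have h3 := Real.exp_pos 1
    have h4 := Real.pi_pos
    linarith

end Pool.Agent.Results.MP_a2f59b_nt.RandomBasesEveryScale
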