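import Pool.Agent.H340R2.LW
import Pool.Agent.W2helper70.TT.Plane2
import Pool.Agent.W2helper70.TT.Simplex

/-!
# One relation between the numbers `π ^ r e ^ β` generates all of them

Let `l` be any complex number and put `M(r, β) = exp (r l + β)` for rational `r` and algebraic `β`.
For `l = log π` these are the numbers `π ^ r e ^ β`. A simplex relation is a relation
`c₀ M(v₀) + ⋯ + c_k M(v_k) = 0` with `k ≥ 2`, nonzero algebraic coefficients and affinely
independent exponents `vᵢ`. Examples are `π + e - α = 0` for algebraic `α ≠ 0`, the same with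
`π - e` or `a μ + b ν`, where `a, b` are algebraic and `μ`, `ν` are multiplicatively independent
numbers of the form `π ^ r e ^ β`, and all relations with three terms no two of which are
proportional over the algebraic numbers.

If there is a simplex relation, then it generates the ideal of all relations: an element
`∑ b_w [w]` of the group algebra of `ℚ × ℚ̄` over `ℚ̄` has value `∑ b_w M(w) = 0` if and only if it is
divisible by `∑ cᵢ [vᵢ]`. In particular there is at most one simplex relation, up to the order of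
the terms and multiplication by a common factor `b M(w)`.

Proof. Let `p`, `q`, ... be the differences of the exponents, and let `φ` be a linear form with
`φ(p) = 1` that vanishes on the other ones and `ψ` the same for `q`. By the theorem of Lindemann and
Weierstrass and a rank argument, the numbers `M` of a basis of `ker φ` are algebraically
independent. With the relation one can reduce every element to the strip `0 ≤ φ < 1`, and the
claim is that there nothing has value `0`. Over the algebraic closure `Ω` of the field generated by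
the numbers `M(v)`, `v ∈ ker φ ∩ ker ψ`, the relation is the equation `a x ^ N + b y ^ N = s` of a
Fermat curve for the `N`-th roots `x`, `y` of `M(p)`, `M(q)`, and `y` is transcendental over `Ω`; this
curve is irreducible by Eisenstein's criterion, so that `1, x, …, x ^ (N - 1)` are linearly
independent over `Ω(y)`.
-/

set_option autoImplicit false

namespace Pool.Agent.Results.MP_a2f59b_nt.SimplexRelation

open Pool.Agent.W2helper70.TT

/-- `M l (r, β) = exp (r l + β)` for rational `r` and algebraic `β`. -/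
noncomputable def M (l : ℂ) (v : ℚ × algebraicClosure ℚ ℂ) : ℂ :=
  Complex.exp ((v.1 : ℂ) * l + (v.2 : ℂ))

/-- The value of the formal combination `∑ b_w [w]` is `∑ b_w M l w`. -/
noncomputable def value (l : ℂ)
    (g : AddMonoidAlgebra (algebraicClosure ℚ ℂ) (ℚ × algebraicClosure ℚ ℂ)) : ℂ :=
  g.coeff.sum fun w b => (b : ℂ) * M l w

/-- `c 0 * M l (v 0) + ⋯ + c k * M l (v k) = 0` with nonzero algebraic coefficients and affinely
independent exponents. -/
def IsSimplexRelation (l : ℂ) {k : ℕ} (c : Fin (k + 1) → algebraicClosure ℚ ℂ)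
    (v : Fin (k + 1) → ℚ × algebraicClosure ℚ ℂ) : Prop :=
  (∀ i, c i ≠ 0) ∧ AffineIndependent ℚ v ∧ ∑ i, (c i : ℂ) * M l (v i) = 0

/-- `c 0 * M l (v 0) + c 1 * M l (v 1) + c 2 * M l (v 2) = 0` with nonzero algebraic coefficients
`c i` and transcendental ratios `M l (v i) / M l (v j)`, `i ≠ j`. -/
def IsRelation (l : ℂ) (c : Fin 3 → ℂ) (v : Fin 3 → ℚ × algebraicClosure ℚ ℂ) : Prop :=
  (∀ i, IsAlgebraic ℚ (c i) ∧ c i ≠ 0) ∧
  (∀ i j, i ≠ j → Transcendental ℚ (M l (v i) / M l (v j))) ∧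
  ∑ i, c i * M l (v i) = 0

theorem M_eq (l : ℂ) (v : ℚ × algebraicClosure ℚ ℂ) : M l v = E l v := rfl

theorem IsRelation.rel {l : ℂ} {c : Fin 3 → ℂ} {v : Fin 3 → ℚ × algebraicClosure ℚ ℂ}
    (h : IsRelation l c v) : Rel l (v 0 - v 2) (v 1 - v 2) (-(c 0 / c 2) * E l (v 0 - v 2)) := by
  obtain ⟨hc, ht, hs⟩ := h
  rw [Fin.sum_univ_three] at hs
  have hc0 := hc 0
  have hc1 := hc 1
  have hc2 := hc 2
  have hk0 : Cst QB (c 0) := cst_iff.mpr hc0.1
  have hk1 : Cst QB (c 1) := cst_iff.mpr hc1.1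
  have hk2 : Cst QB (c 2) := cst_iff.mpr hc2.1
  have hM2 := E_ne l (v 2)
  refine ⟨?_, ⟨-(c 0 / c 2), (hk0.div hk2).neg, ?_, rfl⟩, -(c 1 / c 2), (hk1.div hk2).neg, ?_, ?_⟩
  · intro hcon
    have h1 : Cst QB (E l (v 0 - v 2)) := by
      have h2 : E l (v 0 - v 2) = (-(c 0 / c 2) * E l (v 0 - v 2)) / (-(c 0 / c 2)) := by
        have := hc0.2
        have := hc2.2
        field_simp
      rw [h2]
      exact hcon.div (hk0.div hk2).neg
    rw [cst_iff, E_sub] at h1
    exact ht 0 2 (by decide) h1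
  · exact neg_ne_zero.mpr (div_ne_zero hc0.2 hc2.2)
  · exact neg_ne_zero.mpr (div_ne_zero hc1.2 hc2.2)
  · rw [E_sub, E_sub]
    have h2 := hc2.2
    simp only [M_eq] at hs
    field_simp
    linear_combination hs

/-- the exponents of a three-term relation are affinely independent -/
theorem IsRelation.affine {l : ℂ} {c : Fin 3 → ℂ} {v : Fin 3 → ℚ × algebraicClosure ℚ ℂ}
    (h : IsRelation l c v) : AffineIndependent ℚ v := by
  rw [affineIndependent_iff_linearIndependent_vsub ℚ v 2]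
  rw [Fintype.linearIndependent_iff]
  intro g hg
  have key : ∀ (x y : ℚ), x • (v 0 - v 2) + y • (v 1 - v 2) = 0 → x = 0 ∧ y = 0 := by
    intro x y hxy
    apply h.rel.indep
    rw [hxy, E_zero]
    exact cst_one
  have huniv : (Finset.univ : Finset {x : Fin 3 // x ≠ 2}) = {⟨0, by decide⟩, ⟨1, by decide⟩} := by
    decide
  rw [huniv, Finset.sum_pair (by decide)] at hg
  obtain ⟨h0, h1⟩ := key _ _ hg
  rintro ⟨i, hi⟩
  fin_cases i
  · exact h0
  · exact h1
  · exact absurd rfl hi

/-- `r ≠ 0` is rational, `β ≠ 0` and `c ≠ 0` are algebraic, and `π ^ r + c e ^ β` is a nonzero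
algebraic number. -/
def Exceptional (r : ℚ) (β c : ℝ) : Prop :=
  r ≠ 0 ∧ (IsAlgebraic ℚ β ∧ β ≠ 0) ∧ (IsAlgebraic ℚ c ∧ c ≠ 0) ∧
  IsAlgebraic ℚ (Real.pi ^ (r : ℝ) + c * Real.exp β) ∧ Real.pi ^ (r : ℝ) + c * Real.exp β ≠ 0

/-- `e ^ β` is transcendental -/
theorem exp_tr {β : ℂ} (hβ : IsAlgebraic ℚ β) (h0 : β ≠ 0) : Transcendental ℚ (Complex.exp β) := by
  intro h
  have h1 := Pool.Agent.H340R2.LW.lindemann_weierstrass (Finset.univ : Finset (Fin 2))
    ![β, 0] ![1, -Complex.exp β]
    (by intro i _; fin_cases i; exacts [hβ, isAlgebraic_zero])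
    (by intro i _; fin_cases i; exacts [isAlgebraic_one, h.neg])
    (by
      intro i _ j _ hij
      fin_cases i <;> fin_cases j <;> simp_all)
    (by simp)
    0 (Finset.mem_univ _)
  simp at h1

/-- `π ^ r` is transcendental -/
theorem pi_tr {r : ℚ} (hr : r ≠ 0) : Transcendental ℚ (Complex.exp (r * (Real.log Real.pi : ℂ))) := by
  intro h
  apply Pool.Agent.H340R2.LW.transcendental_pi_complex
  have h1 : (Complex.exp (r * (Real.log Real.pi : ℂ))) ^ r.den = (Real.pi : ℂ) ^ r.num := by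
    rw [← Complex.exp_nat_mul, ← mul_assoc]
    have h2 : ((r.den : ℕ) : ℂ) * (r : ℂ) = r.num := by
      have := Rat.mul_den_eq_num r
      rw [mul_comm]
      exact_mod_cast congrArg (fun x : ℚ => (x : ℂ)) this
    rw [h2, Complex.exp_int_mul]
    congr 1
    rw [← Complex.ofReal_exp, Real.exp_log Real.pi_pos]
  have h3 : IsAlgebraic ℚ ((Real.pi : ℂ) ^ r.num) := by rw [← h1]; exact h.pow _
  have h4 : r.num ≠ 0 := Rat.num_ne_zero.mpr hr
  rcases Int.lt_or_gt_of_ne h4 with h5 | h5
  · obtain ⟨n, hn⟩ := Int.eq_ofNat_of_zero_le (show 0 ≤ -r.num by omega)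
    have h6 : r.num = -(n : ℤ) := by omega
    rw [h6, zpow_neg, zpow_natCast] at h3
    have h7 := h3.inv
    rw [inv_inv] at h7
    exact h7.of_pow (by omega)
  · obtain ⟨n, hn⟩ := Int.eq_ofNat_of_zero_le h5.le
    rw [hn, zpow_natCast] at h3
    exact h3.of_pow (by omega)

theorem real_alg {x : ℝ} (h : IsAlgebraic ℚ x) : IsAlgebraic ℚ (x : ℂ) := h.algebraMap (A := ℂ)

/-- the exponent of `e ^ β` -/
noncomputable def bet {β : ℝ} (h : IsAlgebraic ℚ β) : algebraicClosure ℚ ℂ :=
  ⟨(β : ℂ), mem_algebraicClosure_iff.mpr (real_alg h)⟩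

theorem exceptional_rel {r : ℚ} {β c : ℝ} (h : Exceptional r β c) :
    IsRelation (Real.log Real.pi : ℂ)
      ![1, c, -((Real.pi ^ (r : ℝ) + c * Real.exp β : ℝ) : ℂ)]
      ![(r, 0), (0, bet h.2.1.1), (0, 0)] := by
  have hh := h
  obtain ⟨hr, ⟨hβ, hβ0⟩, ⟨hc, hc0⟩, hs, hs0⟩ := h
  have m0 : M (Real.log Real.pi : ℂ) (r, 0) = Complex.exp (r * (Real.log Real.pi : ℂ)) := by
    simp [M]
  have m0' : M (Real.log Real.pi : ℂ) (r, 0) = ((Real.pi ^ (r : ℝ) : ℝ) : ℂ) := by
    rw [m0, Real.rpow_def_of_pos Real.pi_pos]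
    push_cast
    rw [mul_comm]
  have m1 : M (Real.log Real.pi : ℂ) (0, bet hβ) = Complex.exp (β : ℂ) := by
    simp [M, bet]
  have m2 : M (Real.log Real.pi : ℂ) (0, 0) = 1 := by simp [M]
  have t0 : Transcendental ℚ (M (Real.log Real.pi : ℂ) (r, 0)) := by rw [m0]; exact pi_tr hr
  have t1 : Transcendental ℚ (M (Real.log Real.pi : ℂ) (0, bet hβ)) := by
    rw [m1]; exact exp_tr (real_alg hβ) (by exact_mod_cast hβ0)
  have hsC : ((Real.pi ^ (r : ℝ) + c * Real.exp β : ℝ) : ℂ) =
      M (Real.log Real.pi : ℂ) (r, 0) + c * M (Real.log Real.pi : ℂ) (0, bet hβ) := by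
    rw [m0', m1]; push_cast; ring
  have hsA : IsAlgebraic ℚ (M (Real.log Real.pi : ℂ) (r, 0) +
      c * M (Real.log Real.pi : ℂ) (0, bet hβ)) := by rw [← hsC]; exact real_alg hs
  have hs0' : M (Real.log Real.pi : ℂ) (r, 0) +
      c * M (Real.log Real.pi : ℂ) (0, bet hβ) ≠ 0 := by rw [← hsC]; exact_mod_cast hs0
  have hcC := real_alg hc
  have hc0C : (c : ℂ) ≠ 0 := by exact_mod_cast hc0
  have hn0 : M (Real.log Real.pi : ℂ) (r, 0) ≠ 0 := Complex.exp_ne_zero _
  have hn1 : M (Real.log Real.pi : ℂ) (0, bet hβ) ≠ 0 := Complex.exp_ne_zero _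
  have t2 : Transcendental ℚ (M (Real.log Real.pi : ℂ) (r, 0) /
      M (Real.log Real.pi : ℂ) (0, bet hβ)) := by
    intro h2
    apply t1
    have h3 : M (Real.log Real.pi : ℂ) (0, bet hβ) = (M (Real.log Real.pi : ℂ) (r, 0) +
      c * M (Real.log Real.pi : ℂ) (0, bet hβ)) / (M (Real.log Real.pi : ℂ) (r, 0) /
      M (Real.log Real.pi : ℂ) (0, bet hβ) + c) := by
      have h4 : M (Real.log Real.pi : ℂ) (r, 0) /
        M (Real.log Real.pi : ℂ) (0, bet hβ) + c ≠ 0 := by
        intro h5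
        apply hs0'
        field_simp at h5
        linear_combination h5
      rw [eq_div_iff h4]
      field_simp
    rw [h3, div_eq_mul_inv]
    exact hsA.mul (h2.add hcC).inv
  have tinv : ∀ z : ℂ, Transcendental ℚ z → Transcendental ℚ z⁻¹ := by
    intro z hz h2
    apply hz
    rw [← inv_inv z]; exact h2.inv
  refine ⟨?_, ?_, ?_⟩
  · intro i
    fin_cases i
    · exact ⟨isAlgebraic_one, one_ne_zero⟩
    · exact ⟨hcC, hc0C⟩
    · exact ⟨(real_alg hs).neg, neg_ne_zero.mpr (by exact_mod_cast hs0)⟩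
  · intro i j hij
    fin_cases i <;> fin_cases j <;> first | exact absurd rfl hij | skip
    · exact t2
    · show Transcendental ℚ (M _ (r, 0) / M _ (0, 0))
      rw [m2, div_one]; exact t0
    · show Transcendental ℚ (M _ (0, bet hβ) / M _ (r, 0))
      rw [← inv_div]; exact tinv _ t2
    · show Transcendental ℚ (M _ (0, bet hβ) / M _ (0, 0))
      rw [m2, div_one]; exact t1
    · show Transcendental ℚ (M _ (0, 0) / M _ (r, 0))
      rw [m2, one_div]; exact tinv _ t0
    · show Transcendental ℚ (M _ (0, 0) / M _ (0, bet hβ))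
      rw [m2, one_div]; exact tinv _ t1
  · rw [Fin.sum_univ_three]
    show 1 * M _ (r, 0) + c * M _ (0, bet hβ) +
      -((Real.pi ^ (r : ℝ) + c * Real.exp β : ℝ) : ℂ) * M _ (0, 0) = 0
    rw [m2, hsC]; ring

theorem exceptional_unique {r r' : ℚ} {β β' c c' : ℝ} (h : Exceptional r β c)
    (h' : Exceptional r' β' c') : r = r' ∧ β = β' ∧ c = c' := by
  have hr := h.1
  have hr' := h'.1
  have hβ0 := h.2.1.2
  have hβ0' := h'.2.1.2
  have hb : bet h.2.1.1 ≠ 0 := by
    intro h0
    have := congrArg Subtype.val h0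
    apply hβ0
    have h1 : ((β : ℝ) : ℂ) = 0 := this
    exact_mod_cast h1
  have hb' : bet h'.2.1.1 ≠ 0 := by
    intro h0
    have := congrArg Subtype.val h0
    apply hβ0'
    have h1 : ((β' : ℝ) : ℂ) = 0 := this
    exact_mod_cast h1
  have hu := (exceptional_rel h).rel.unique (exceptional_rel h').rel
  have key : r = r' ∧ bet h.2.1.1 = bet h'.2.1.1 := by
    have e0 : ((0 : ℚ), (0 : algebraicClosure ℚ ℂ)) = 0 := rfl
    simp only [Matrix.cons_val_zero, Matrix.cons_val_one, Matrix.cons_val, e0, sub_zero] at hu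
    rcases hu with ⟨e1, e2⟩ | ⟨e1, e2⟩ | ⟨e1, e2⟩ | ⟨e1, e2⟩ | ⟨e1, e2⟩ | ⟨e1, e2⟩
    · have h1 := congrArg Prod.fst e1
      have h2 := congrArg Prod.snd e2
      exact ⟨h1.symm, h2.symm⟩
    · have h1 := congrArg Prod.fst e1
      exact absurd h1 (by simpa using hr')
    · have h1 := congrArg Prod.fst e2
      exact absurd h1 (by simpa using hr)
    · have h1 := congrArg Prod.fst e1
      exact absurd h1 (by simpa using hr')
    · have h1 := congrArg Prod.snd e1
      exact absurd h1 (by simpa using hb)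
    · have h1 := congrArg Prod.fst e2
      exact absurd h1 (by simpa using hr)
  obtain ⟨k1, k2⟩ := key
  have k3 : β = β' := by
    have := congrArg Subtype.val k2
    have h1 : ((β : ℝ) : ℂ) = ((β' : ℝ) : ℂ) := this
    exact_mod_cast h1
  refine ⟨k1, k3, ?_⟩
  subst k1 k3
  by_contra hcc
  have h1 := (h.2.2.2.1).sub (h'.2.2.2.1)
  have h2 : IsAlgebraic ℚ (Real.exp β) := by
    have h3 : Real.exp β = (Real.pi ^ (r : ℝ) + c * Real.exp β -
        (Real.pi ^ (r : ℝ) + c' * Real.exp β)) / (c - c') := by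
      have : c - c' ≠ 0 := sub_ne_zero.mpr hcc
      field_simp
      ring
    rw [h3, div_eq_mul_inv]
    exact h1.mul (h.2.2.1.1.sub h'.2.2.1.1).inv
  have h4 := real_alg h2
  rw [Complex.ofReal_exp] at h4
  exact exp_tr (real_alg h.2.1.1) (by exact_mod_cast hβ0) h4

/-- **(1)** A simplex relation with `k + 1 ≥ 3` terms generates the ideal of all relations: the value
of an element `g` of the group algebra is zero if and only if `g` is divisible by `∑ cᵢ [vᵢ]`.

**(2)** Simplex relations with at least three terms are unique up to the order of the terms and a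
common factor.

**(3)** A relation with three terms, no two of which are proportional over the algebraic numbers,
is a simplex relation.

**(4)** At most one of the numbers `π ^ r + c e ^ β` (`r ≠ 0` rational, `β ≠ 0`, `c ≠ 0` real
algebraic) is a nonzero algebraic number. -/
theorem result :
    (∀ (l : ℂ) (k : ℕ) (c : Fin (k + 1) → algebraicClosure ℚ ℂ)
      (v : Fin (k + 1) → ℚ × algebraicClosure ℚ ℂ), 2 ≤ k → IsSimplexRelation l c v →
      ∀ g : AddMonoidAlgebra (algebraicClosure ℚ ℂ) (ℚ × algebraicClosure ℚ ℂ),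
        value l g = 0 ↔ (∑ i, AddMonoidAlgebra.single (v i) (c i)) ∣ g) ∧
    (∀ (l : ℂ) (k k' : ℕ) (c : Fin (k + 1) → algebraicClosure ℚ ℂ)
      (v : Fin (k + 1) → ℚ × algebraicClosure ℚ ℂ) (c' : Fin (k' + 1) → algebraicClosure ℚ ℂ)
      (v' : Fin (k' + 1) → ℚ × algebraicClosure ℚ ℂ), 2 ≤ k → 2 ≤ k' →
      IsSimplexRelation l c v → IsSimplexRelation l c' v' →
      ∃ (σ : Fin (k + 1) ≃ Fin (k' + 1)) (w : ℚ × algebraicClosure ℚ ℂ)
        (b : algebraicClosure ℚ ℂ), b ≠ 0 ∧ ∀ i, v' (σ i) = v i + w ∧ c' (σ i) = b * c i) ∧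
    (∀ (l : ℂ) (c : Fin 3 → ℂ) (v : Fin 3 → ℚ × algebraicClosure ℚ ℂ),
      IsRelation l c v → AffineIndependent ℚ v) ∧
    (∀ (r r' : ℚ) (β β' c c' : ℝ), Exceptional r β c → Exceptional r' β' c' →
      r = r' ∧ β = β' ∧ c = c') := by
  refine ⟨?_, ?_, fun _ _ _ h => h.affine, fun _ _ _ _ _ _ h h' => exceptional_unique h h'⟩
  · rintro l k c v hk ⟨hc, hv, hs⟩ g
    obtain ⟨m, rfl⟩ := Nat.exists_eq_add_of_le' hk
    have h1 := simplex (l := l) (m := m) (v := v) (c := c) hc hv hs g
    rw [ev_apply] at h1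
    exact h1
  · rintro l k k' c v c' v' hk hk' ⟨hc, hv, hs⟩ ⟨hc', hv', hs'⟩
    obtain ⟨m, rfl⟩ := Nat.exists_eq_add_of_le' hk
    obtain ⟨m', rfl⟩ := Nat.exists_eq_add_of_le' hk'
    exact simplex_unique (l := l) hc hv hs hc' hv' hs'

end Pool.Agent.Results.MP_a2f59b_nt.SimplexRelation
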